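import Pool.Agent.T9h36.N1.Spec
import Pool.Agent.T9h58.NK.N1

/-! (N1) of the slope 1 part: the numbers of orbits of the figures are additive. -/

set_option autoImplicit false

open Set
open scoped RealInnerProductSpace

namespace Pool.Agent.T9h58.N1

open Pool.Agent.T9h98.DC Pool.Agent.T9h44.NK Pool.Agent.T9h36.N1

theorem n1 (hSH : S_SH) : S_N1 := by
  rintro d P H v n w n' ι ι' k m hP _ ⟨h1, h2, h3, h4, h5⟩ ⟨g1, g2, g3, g4, g5⟩ hvw hfew hno
  rcases Pool.Agent.T9h58.NK.few_add hSH hP h1 h2 h3 h4 h5 g1 g2 g3 g4 g5 hvw hfew with h | h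
  · exact h
  · exact absurd h hno

end Pool.Agent.T9h58.N1
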