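import Pool.Agent.T9h36.N1.Spec
import Pool.Agent.T9h58.NK.N1

/-! (N5) of the slope 1 part. -/

set_option autoImplicit false

open Set
open scoped RealInnerProductSpace

namespace Pool.Agent.T9h58.N1

open Pool.Agent.T9h98.DC Pool.Agent.T9h44.NK Pool.Agent.T9h36.N1
open Pool.Agent.T9h58.NK (imCh face_image img_single fig_image fig_equiv exists_k)

/-- equivalence of chains through `v` from the transitivity on the figure -/
theorem lift_equiv (hVF : S_VF) (hSH : S_SH) {d : ℕ} {P : Set (E (d + 1))}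
    {H : Subgroup (E (d + 1) ≃ₗᵢ[ℝ] E (d + 1))} {v n : E (d + 1)}
    {ι : E d →ₗᵢ[ℝ] E (d + 1)} (hP : IsPolytope P) (hpres : Pres H P) (hD : Dat P H v n ι)
    {j : ℕ} (hPT : PT j (figH H v ι) (fig v n ι P)) (Φ1 Ψ1 : Ch P (j + 1))
    (hΦ1 : Φ1.face 0 = {v}) (hΨ1 : Ψ1.face 0 = {v}) :
    ∃ h ∈ H, h v = v ∧ ∀ i, h '' Φ1.face i = Ψ1.face i := by
  obtain ⟨hv, hsup, hn, hι, hfix⟩ := hD
  have hsh := hSH d P v n ι hP hv hsup hn hι
  obtain ⟨Φ', hΦ'⟩ := (hsh j).2 Φ1 hΦ1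
  obtain ⟨Ψ', hΨ'⟩ := (hsh j).2 Ψ1 hΨ1
  obtain ⟨k, ⟨h, hh, h1, h2⟩, h3⟩ := hPT Φ' Ψ'
  have hvin : ∀ (Χ : Ch P (j + 1)), Χ.face 0 = {v} → ∀ i, v ∈ Χ.face i := by
    intro Χ hX i
    apply Χ.mono (Fin.zero_le i)
    rw [hX]
    exact mem_singleton v
  refine ⟨h, hh, h1, fun i => ?_⟩
  refine Fin.cases ?_ (fun i => ?_) i
  · rw [hΦ1, hΨ1, image_singleton, h1]
  · have h4 : fig v n ι (h '' Φ1.face i.succ) = fig v n ι (Ψ1.face i.succ) := by
      rw [fig_image h1 (hfix h hh h1) h2, hΦ', h3, hΨ']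
    have hf1 := face_image h (hpres h hh) (Φ1.isFace i.succ)
    have hf2 := Ψ1.isFace i.succ
    have hv1 : v ∈ h '' Φ1.face i.succ := ⟨v, hvin Φ1 hΦ1 _, h1⟩
    have hv2 := hvin Ψ1 hΨ1 i.succ
    have hdet := (hVF d P v n ι hP hv hsup hn hι).2.2.2
    exact Subset.antisymm (hdet _ _ hf1 hf2 hv1 hv2 h4.subset)
      (hdet _ _ hf2 hf1 hv2 hv1 h4.symm.subset)

/-- the first faces of a chain -/
def cut {d : ℕ} {P : Set (E d)} {j : ℕ} (Φ : Ch P (j + 2)) : Ch P 2 where
  face i := Φ.face (Fin.castLE (by omega) i)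
  isFace i := Φ.isFace _
  dim i := Φ.dim _
  mono a b hab := Φ.mono hab

/-- the chain with another vertex of the edge -/
def swap {d : ℕ} {P : Set (E d)} {j : ℕ} (Φ : Ch P (j + 2)) {v : E d} (hv : Vx P v)
    (h1 : v ∈ Φ.face 1) : Ch P (j + 2) where
  face i := Fin.cases {v} (fun i => Φ.face i.succ) i
  isFace i := by
    refine Fin.cases ?_ (fun i => ?_) i
    · exact hv
    · exact Φ.isFace _
  dim i := by
    refine Fin.cases ?_ (fun i => ?_) i
    · show dm ({v} : Set (E d)) = 0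
      unfold dm
      rw [vectorSpan_singleton]
      simp
    · exact Φ.dim _
  mono a b := by
    refine Fin.cases ?_ (fun a => ?_) a
    · refine Fin.cases ?_ (fun b => ?_) b
      · intro _
        exact le_rfl
      · intro _
        show ({v} : Set (E d)) ⊆ Φ.face b.succ
        rw [singleton_subset_iff]
        exact Φ.mono (Fin.succ_le_succ_iff.2 (Fin.zero_le b)) h1
    · refine Fin.cases ?_ (fun b => ?_) b
      · intro h
        exact absurd h (not_le_of_gt (Fin.succ_pos a))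
      · intro h
        exact Φ.mono h

/-- the chain vertex, edge -/
def edgeCh {d : ℕ} {P : Set (E d)} {w v : E d} (hw : Vx P w) (he : IsFace P (segment ℝ w v))
    (hd : dm (segment ℝ w v) = 1) : Ch P 2 where
  face i := Fin.cases {w} (fun _ => segment ℝ w v) i
  isFace i := by
    refine Fin.cases ?_ (fun i => ?_) i
    · exact hw
    · exact he
  dim i := by
    refine Fin.cases ?_ (fun i => ?_) i
    · show dm ({w} : Set (E d)) = 0
      unfold dm
      rw [vectorSpan_singleton]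
      simp
    · show dm (segment ℝ w v) = (i.succ : Fin 2).val
      rw [hd]
      have : i = 0 := Subsingleton.elim _ _
      rw [this]
      rfl
  mono a b := by
    refine Fin.cases ?_ (fun a => ?_) a
    · refine Fin.cases ?_ (fun b => ?_) b
      · intro _
        exact le_rfl
      · intro _
        show ({w} : Set (E d)) ⊆ segment ℝ w v
        rw [singleton_subset_iff]
        exact left_mem_segment ℝ w v
    · refine Fin.cases ?_ (fun b => ?_) b
      · intro h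
        exact absurd h (not_le_of_gt (Fin.succ_pos a))
      · intro _
        exact le_rfl

theorem n5 (hFA : S_FACES) (hVF : S_VF) (hSH : S_SH) : S_N5 := by
  intro d P H v n w n' ι ι' j hP hpres hDv hDw hadj hPTv hPTw Ψ Ψ'
  have hv : Vx P v := hDv.1
  have hw : Vx P w := hDw.1
  have hfac := hFA (d + 1) P hP.1
  have hdim : dm (segment ℝ w v) = 1 := (hfac.2.2.2.2.2.2.2.2.1 w v hadj).2.2.2
  -- move the edge to `[w, v]`
  have hmove : ∀ Φ : Ch P (j + 2), Φ.face 0 = {w} → ∃ a ∈ H, a w = w ∧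
      a '' Φ.face 1 = segment ℝ w v := by
    intro Φ hΦ
    obtain ⟨a, ha, haw, ha2⟩ := lift_equiv hVF hSH hP hpres hDw hPTw (cut Φ)
      (edgeCh hw hadj.2 hdim) hΦ rfl
    exact ⟨a, ha, haw, ha2 1⟩
  obtain ⟨Φ, hΦ, hΦf⟩ := (hSH d P w n' ι' hP hw hDw.2.1 hDw.2.2.1 hDw.2.2.2.1 (j + 1)).1 Ψ
  obtain ⟨Φ', hΦ', hΦf'⟩ := (hSH d P w n' ι' hP hw hDw.2.1 hDw.2.2.1 hDw.2.2.2.1 (j + 1)).1 Ψ'
  obtain ⟨a, ha, haw, hae⟩ := hmove Φ hΦ
  obtain ⟨b, hb, hbw, hbe⟩ := hmove Φ' hΦ'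
  have hva : v ∈ (imCh a (hpres a ha) Φ).face 1 := by
    show v ∈ a '' Φ.face 1
    rw [hae]
    exact right_mem_segment ℝ w v
  have hvb : v ∈ (imCh b (hpres b hb) Φ').face 1 := by
    show v ∈ b '' Φ'.face 1
    rw [hbe]
    exact right_mem_segment ℝ w v
  obtain ⟨h, hh, hhv, hhe⟩ := lift_equiv hVF hSH hP hpres hDv hPTv
    (swap (imCh a (hpres a ha) Φ) hv hva) (swap (imCh b (hpres b hb) Φ') hv hvb) rfl rfl
  have hhe' : ∀ i : Fin (j + 1), h '' (a '' Φ.face i.succ) = b '' Φ'.face i.succ :=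
    fun i => hhe i.succ
  have hhw : h w = w := by
    have h1 : h '' segment ℝ w v = segment ℝ w v := by
      have h2 : h '' (a '' Φ.face 1) = b '' Φ'.face 1 := hhe' 0
      rw [hae, hbe] at h2
      exact h2
    have h2 : h w ∈ segment ℝ w v := by
      rw [← h1]
      exact mem_image_of_mem _ (left_mem_segment ℝ w v)
    have h3 : Vx P (h w) := by
      have := face_image h (hpres h hh) hw
      rwa [image_singleton] at this
    rcases hfac.2.2.2.2.2.2.2.2.2 w v hadj (h w) h3 h2 with h4 | h4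
    · exact h4
    · exfalso
      rw [← hhv] at h4
      exact hadj.1 (h.injective h4)
  refine fig_equiv hDw.2.2.1 hDw.2.2.2.1 hDw.2.2.2.2 hΦ hΦ' hΦf hΦf'
    ⟨b⁻¹ * h * a, H.mul_mem (H.mul_mem (H.inv_mem hb) hh) ha, fun i => ?_⟩
  have hb1 : ∀ F : Set (E (d + 1)), ⇑(b⁻¹) '' (b '' F) = F := by
    intro F
    rw [← image_comp]
    have hid : (⇑(b⁻¹) ∘ ⇑b) = id := by
      funext x
      exact b.symm_apply_apply x
    rw [hid, image_id]
  have hcomp : ⇑(b⁻¹ * h * a) '' Φ.face i = ⇑(b⁻¹) '' (h '' (a '' Φ.face i)) := by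
    rw [← image_comp, ← image_comp]
    rfl
  rw [hcomp]
  refine Fin.cases ?_ (fun i => ?_) i
  · rw [hΦ, hΦ', image_singleton, image_singleton, haw, hhw]
    have h5 := hb1 {w}
    rw [image_singleton, hbw] at h5
    exact h5
  · rw [hhe' i, hb1]

end Pool.Agent.T9h58.N1
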